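import Pool.Agent.helper62.VN.SpecE

/-!
# MP_07c750, project VN, block 5, row NLS (helper5): the local coordinates are surjective (compare `Pool/Agent/helper59/VQE/LCS.lean`)
-/

set_option autoImplicit false

open scoped MatrixGroups ContDiff Topology UpperHalfPlane
open UpperHalfPlane MeasureTheory Filter Set

namespace Pool.Agent.VNE

open Pool.Agent.RS Pool.Agent.VQE

noncomputable section

theorem NLS_dg : dg 0 0 = 1 := by
  unfold dg
  rw [dif_pos (by norm_num)]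
  apply Matrix.SpecialLinearGroup.ext
  intro i j
  fin_cases i <;> fin_cases j <;> simp

theorem NLS_pj (X : Fd) (g : SL(2, ℝ)) : pj X g 0 0 = 1 := by
  unfold pj bj cj
  have h1 : ((0 : ℝ) - (1 + X.m g) * 0 / X.p g) / 2 = 0 := by simp
  have h2 : (-(0 : ℝ) - (1 - X.m g) * 0 / X.p g) / 2 = 0 := by simp
  rw [h1, h2, NLS_dg]

theorem NLS_nm (D : SL(2, ℝ)) : |D.1 0 0 - 1| ≤ nm D ∧ |D.1 0 1| ≤ nm D ∧ |D.1 1 0| ≤ nm D ∧ |D.1 1 1 - 1| ≤ nm D := by
  unfold nm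
  refine ⟨le_max_of_le_left (le_max_left _ _), le_max_of_le_left (le_max_right _ _), le_max_of_le_right (le_max_left _ _),
    le_max_of_le_right (le_max_right _ _)⟩

/-- the inverse of the linear part -/
def NLS_S (p q m us uu a b c : ℝ) : Fin 3 → ℝ :=
  ![a / p, ((b - c) - m * (b + c) + 2 * q * a / p - us * (-(p * (b + c)))) / (uu - us),
    (uu * (-(p * (b + c))) - ((b - c) - m * (b + c) + 2 * q * a / p)) / (uu - us)]

theorem NLS_S_sub (p q m us uu a b c a' b' c' : ℝ) (i : Fin 3) :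
    NLS_S p q m us uu a b c i - NLS_S p q m us uu a' b' c' i = NLS_S p q m us uu (a - a') (b - b') (c - c') i := by
  fin_cases i
  · show a / p - a' / p = (a - a') / p
    ring
  · show ((b - c) - m * (b + c) + 2 * q * a / p - us * (-(p * (b + c)))) / (uu - us) -
      ((b' - c') - m * (b' + c') + 2 * q * a' / p - us * (-(p * (b' + c')))) / (uu - us) =
      (((b - b') - (c - c')) - m * ((b - b') + (c - c')) + 2 * q * (a - a') / p - us * (-(p * ((b - b') + (c - c'))))) / (uu - us)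
    ring
  · show (uu * (-(p * (b + c))) - ((b - c) - m * (b + c) + 2 * q * a / p)) / (uu - us) -
      (uu * (-(p * (b' + c'))) - ((b' - c') - m * (b' + c') + 2 * q * a' / p)) / (uu - us) =
      (uu * (-(p * ((b - b') + (c - c')))) - (((b - b') - (c - c')) - m * ((b - b') + (c - c')) + 2 * q * (a - a') / p)) / (uu - us)
    ring

theorem NLS_S_lin (p q m us uu : ℝ) (hp : p ≠ 0) (hu : uu - us ≠ 0) (z : Fin 3 → ℝ) (i : Fin 3) :
    NLS_S p q m us uu (z 0 * (p / 2) - -(z 0 * (p / 2)))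
      (-(z 0 * q) + z 1 * ((uu - (1 + m) * 1 / p) / 2) + z 2 * ((us - (1 + m) * 1 / p) / 2))
      (z 0 * q + z 1 * ((-uu - (1 - m) * 1 / p) / 2) + z 2 * ((-us - (1 - m) * 1 / p) / 2)) i = z i := by
  have e1 : (-(z 0 * q) + z 1 * ((uu - (1 + m) * 1 / p) / 2) + z 2 * ((us - (1 + m) * 1 / p) / 2)) +
      (z 0 * q + z 1 * ((-uu - (1 - m) * 1 / p) / 2) + z 2 * ((-us - (1 - m) * 1 / p) / 2)) = -((z 1 + z 2) / p) := by
    field_simp
    ring
  have e2 : (-(z 0 * q) + z 1 * ((uu - (1 + m) * 1 / p) / 2) + z 2 * ((us - (1 + m) * 1 / p) / 2)) -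
      (z 0 * q + z 1 * ((-uu - (1 - m) * 1 / p) / 2) + z 2 * ((-us - (1 - m) * 1 / p) / 2)) =
      -(2 * (z 0 * q)) + (z 1 * uu + z 2 * us) - m * ((z 1 + z 2) / p) := by
    field_simp
    ring
  have e3 : 2 * q * (z 0 * (p / 2) - -(z 0 * (p / 2))) / p = 2 * (z 0 * q) := by
    field_simp
    ring
  unfold NLS_S
  rw [e1, e2, e3]
  fin_cases i
  · show (z 0 * (p / 2) - -(z 0 * (p / 2))) / p = z 0
    field_simp
    ring
  · show ((-(2 * (z 0 * q)) + (z 1 * uu + z 2 * us) - m * ((z 1 + z 2) / p)) - m * (-((z 1 + z 2) / p)) + 2 * (z 0 * q) -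
      us * (-(p * (-((z 1 + z 2) / p))))) / (uu - us) = z 1
    have e4 : us * (-(p * (-((z 1 + z 2) / p)))) = us * (z 1 + z 2) := by
      field_simp
    rw [e4, div_eq_iff hu]
    ring
  · show (uu * (-(p * (-((z 1 + z 2) / p)))) - ((-(2 * (z 0 * q)) + (z 1 * uu + z 2 * us) - m * ((z 1 + z 2) / p)) - m * (-((z 1 + z 2) / p)) +
      2 * (z 0 * q))) / (uu - us) = z 2
    have e4 : uu * (-(p * (-((z 1 + z 2) / p)))) = uu * (z 1 + z 2) := by
      field_simp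
    rw [e4, div_eq_iff hu]
    ring

theorem NLS_S_bd {K C p q m us uu a b c t : ℝ} (hK : 1 ≤ K) (hC : 1 ≤ C) (hp1 : 1 / K ≤ p) (hp2 : p ≤ K) (hq : |q| ≤ K) (hm : |m| ≤ K)
    (h1 : 1 / C ≤ -us) (h2 : -us ≤ C) (h3 : 1 / C ≤ uu) (h4 : uu ≤ C) (ha : |a| ≤ 2 * t) (hb : |b| ≤ t) (hc : |c| ≤ t) (i : Fin 3) :
    |NLS_S p q m us uu a b c i| ≤ 5 * C ^ 2 * K ^ 2 * t := by
  have hK0 : 0 < K := by linarith
  have hC0 : 0 < C := by linarith
  have ht : 0 ≤ t := le_trans (abs_nonneg b) hb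
  have hp0 : 0 < p := lt_of_lt_of_le (by positivity) hp1
  have hpi : 1 / p ≤ K := by
    rw [div_le_iff₀ hp0]
    rw [div_le_iff₀ hK0] at hp1
    linarith
  have hpi0 : 0 < 1 / p := by positivity
  have hap : |a / p| ≤ 2 * K * t := by
    rw [div_eq_mul_one_div, abs_mul, abs_of_pos hpi0]
    calc |a| * (1 / p) ≤ (2 * t) * K := mul_le_mul ha hpi hpi0.le (by positivity)
      _ = 2 * K * t := by ring
  have hbc : |b + c| ≤ 2 * t := (abs_add_le _ _).trans (by linarith)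
  have hJ : |-(p * (b + c))| ≤ 2 * K * t := by
    rw [abs_neg, abs_mul, abs_of_pos hp0]
    calc p * |b + c| ≤ K * (2 * t) := mul_le_mul hp2 hbc (abs_nonneg _) hK0.le
      _ = 2 * K * t := by ring
  have hW : |(b - c) - m * (b + c) + 2 * q * a / p| ≤ 8 * K ^ 2 * t := by
    have w1 : |b - c| ≤ 2 * t := (abs_sub _ _).trans (by linarith)
    have w2 : |m * (b + c)| ≤ K * (2 * t) := by
      rw [abs_mul]
      exact mul_le_mul hm hbc (abs_nonneg _) hK0.le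
    have w3 : |2 * q * a / p| ≤ 2 * K * (2 * K * t) := by
      have : 2 * q * a / p = (2 * q) * (a / p) := by ring
      rw [this, abs_mul]
      have w4 : |2 * q| ≤ 2 * K := by
        rw [abs_mul, abs_of_pos (by norm_num : (0 : ℝ) < 2)]
        linarith
      exact mul_le_mul w4 hap (abs_nonneg _) (by positivity)
    have w5 := abs_add_le ((b - c) - m * (b + c)) (2 * q * a / p)
    have w6 := abs_sub (b - c) (m * (b + c))
    have w7 : 2 * t ≤ 2 * K ^ 2 * t := by nlinarith [mul_nonneg (mul_nonneg (sub_nonneg.2 hK) ht) hK0.le, mul_nonneg (sub_nonneg.2 hK) ht]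
    have w8 : K * (2 * t) ≤ 2 * K ^ 2 * t := by nlinarith [mul_nonneg (mul_nonneg (sub_nonneg.2 hK) ht) hK0.le]
    nlinarith
  have hd : 2 / C ≤ uu - us := by
    have : 2 / C = 1 / C + 1 / C := by ring
    rw [this]
    linarith
  have hd0 : 0 < uu - us := lt_of_lt_of_le (by positivity) hd
  have hdi : 1 / (uu - us) ≤ C / 2 := by
    rw [div_le_div_iff₀ hd0 (by norm_num)]
    rw [div_le_iff₀ hC0] at hd
    linarith
  have hus : |us| ≤ C := abs_le.2 ⟨by linarith, by have : 0 < 1 / C := by positivity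
                                                   linarith⟩
  have huu : |uu| ≤ C := abs_le.2 ⟨by have : 0 < 1 / C := by positivity
                                      linarith, h4⟩
  have hmain : ∀ y : ℝ, |y| ≤ 8 * K ^ 2 * t + C * (2 * K * t) → |y / (uu - us)| ≤ 5 * C ^ 2 * K ^ 2 * t := by
    intro y hy
    rw [div_eq_mul_one_div, abs_mul, abs_of_pos (by positivity : 0 < 1 / (uu - us))]
    have g1 : |y| * (1 / (uu - us)) ≤ (8 * K ^ 2 * t + C * (2 * K * t)) * (C / 2) :=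
      mul_le_mul hy hdi (by positivity) (by positivity)
    refine g1.trans ?_
    have g2 : (8 * K ^ 2 * t + C * (2 * K * t)) * (C / 2) = 4 * (C * (K ^ 2 * t)) + C ^ 2 * (K * t) := by ring
    have g3 : C * (K ^ 2 * t) ≤ C ^ 2 * (K ^ 2 * t) := mul_le_mul_of_nonneg_right (by nlinarith) (by positivity)
    have g4 : C ^ 2 * (K * t) ≤ C ^ 2 * (K ^ 2 * t) :=
      mul_le_mul_of_nonneg_left (mul_le_mul_of_nonneg_right (by nlinarith) ht) (by positivity)
    rw [g2]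
    calc 4 * (C * (K ^ 2 * t)) + C ^ 2 * (K * t) ≤ 4 * (C ^ 2 * (K ^ 2 * t)) + C ^ 2 * (K ^ 2 * t) := by linarith
      _ = 5 * C ^ 2 * K ^ 2 * t := by ring
  fin_cases i
  · show |a / p| ≤ 5 * C ^ 2 * K ^ 2 * t
    refine hap.trans ?_
    have g1 : K * t ≤ C ^ 2 * (K ^ 2 * t) := by
      have g2 : K * t ≤ K ^ 2 * t := mul_le_mul_of_nonneg_right (by nlinarith) ht
      have hC2 : 1 ≤ C ^ 2 := one_le_pow₀ hC
      have g3 : K ^ 2 * t ≤ C ^ 2 * (K ^ 2 * t) := by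
        calc K ^ 2 * t = 1 * (K ^ 2 * t) := (one_mul _).symm
          _ ≤ C ^ 2 * (K ^ 2 * t) := mul_le_mul_of_nonneg_right hC2 (by positivity)
      linarith
    have g4 : 0 ≤ C ^ 2 * (K ^ 2 * t) := by positivity
    calc 2 * K * t = 2 * (K * t) := by ring
      _ ≤ 5 * (C ^ 2 * (K ^ 2 * t)) := by linarith
      _ = 5 * C ^ 2 * K ^ 2 * t := by ring
  · show |((b - c) - m * (b + c) + 2 * q * a / p - us * (-(p * (b + c)))) / (uu - us)| ≤ 5 * C ^ 2 * K ^ 2 * t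
    refine hmain _ ((abs_sub _ _).trans (add_le_add hW ?_))
    rw [abs_mul]
    exact mul_le_mul hus hJ (abs_nonneg _) hC0.le
  · show |(uu * (-(p * (b + c))) - ((b - c) - m * (b + c) + 2 * q * a / p)) / (uu - us)| ≤ 5 * C ^ 2 * K ^ 2 * t
    refine hmain _ ((abs_sub _ _).trans ?_)
    have g1 : |uu * (-(p * (b + c)))| ≤ C * (2 * K * t) := by
      rw [abs_mul]
      exact mul_le_mul huu hJ (abs_nonneg _) hC0.le
    linarith

theorem NLS_S_inj {p q m us uu a b c a' b' c' : ℝ} (hp : p ≠ 0) (hu : uu - us ≠ 0)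
    (h : ∀ i, NLS_S p q m us uu a b c i = NLS_S p q m us uu a' b' c' i) : a = a' ∧ b = b' ∧ c = c' := by
  have h0 : a / p = a' / p := h 0
  have h1 : ((b - c) - m * (b + c) + 2 * q * a / p - us * (-(p * (b + c)))) / (uu - us) =
    ((b' - c') - m * (b' + c') + 2 * q * a' / p - us * (-(p * (b' + c')))) / (uu - us) := h 1
  have h2 : (uu * (-(p * (b + c))) - ((b - c) - m * (b + c) + 2 * q * a / p)) / (uu - us) =
    (uu * (-(p * (b' + c'))) - ((b' - c') - m * (b' + c') + 2 * q * a' / p)) / (uu - us) := h 2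
  have ha : a = a' := by
    rw [div_left_inj' hp] at h0
    exact h0
  rw [div_left_inj' hu] at h1 h2
  subst ha
  have h3 : (uu - us) * (-(p * (b + c))) = (uu - us) * (-(p * (b' + c'))) := by linarith
  have h4 := mul_left_cancel₀ hu h3
  have h5 : p * (b + c) = p * (b' + c') := by linarith
  have h6 := mul_left_cancel₀ hp h5
  rw [h6] at h1
  refine ⟨rfl, ?_, ?_⟩ <;> linarith

theorem NLS_proof (h1 : VQE.NMB_stmt) (h2 : NCH_stmt) (h3 : NTP_stmt) (h4 : NRV_stmt) (h5 : NLC_stmt) : NLS_stmt := by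
  have _ := h1
  have _ := h2
  intro K hK
  obtain ⟨C3, ε3, hC3, hε3, hT⟩ := h3 K hK
  obtain ⟨C5, ε5, hC5, hε5, hL⟩ := h5 K hK
  set Cs : ℝ := 5 * C5 ^ 2 * K ^ 2 with hCs
  have hK2 : 1 ≤ K ^ 2 := one_le_pow₀ hK
  have hC52 : 1 ≤ C5 ^ 2 := one_le_pow₀ hC5
  have hCs5 : 5 ≤ Cs := by rw [hCs]; nlinarith
  have hC5s : Cs ≤ C5 * Cs := by nlinarith
  refine ⟨2 * C5 * Cs + 8 * C5, min 1 (min ε3 ε5), by nlinarith, lt_min one_pos (lt_min hε3 hε5), ?_⟩
  intro ε r X g D hε hεε hr hrC hF hD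
  have hε1 : ε ≤ 1 := hεε.trans (min_le_left _ _)
  have hεε3 : ε ≤ ε3 := hεε.trans ((min_le_right _ _).trans (min_le_left _ _))
  have hεε5 : ε ≤ ε5 := hεε.trans ((min_le_right _ _).trans (min_le_right _ _))
  have hC0 : 0 < 2 * C5 * Cs + 8 * C5 := by nlinarith
  have hCge : C5 ≤ 2 * C5 * Cs + 8 * C5 := by nlinarith
  have hrC5 : r ≤ ε / C5 := hrC.trans (div_le_div_of_nonneg_left hε.le (by linarith) hCge)
  have hr1 : r * (2 * C5 * Cs + 8 * C5) ≤ 1 := by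
    have := (le_div_iff₀ hC0).1 hrC
    linarith
  obtain ⟨-, hL⟩ := hL ε r X hε hεε5 hr hrC5 hF
  obtain ⟨us, uu, hus1, hus2, huu1, huu2, hL⟩ := hL g
  have hFr : HF K (rX X) := (h4 K X hK hF).1
  have hS0 : ∀ (Y : Fd) (_ : HF K Y) (g' : SL(2, ℝ)), SbN ε Y 0 g' = g' := by
    intro Y hY g'
    have e1 := ((hT ε Y hε hεε3 hY).1 g' 0 (by rw [abs_zero]; positivity)).2.1
    rw [abs_zero, mul_zero] at e1
    have e2 : stn ε Y g' 0 = 0 := abs_nonpos_iff.1 e1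
    unfold SbN
    rw [e2, NLS_pj, mul_one]
  have hpsi : psN ε X g (fun _ => 0) = g := by
    unfold psN
    rw [hF.flw.zero, (h4 K X hK hF).2.2 ε 0 g, neg_zero, hS0 (rX X) hFr, hS0 X hF, mul_inv_cancel_right]
  have hpsi0 : g⁻¹ * psN ε X g (fun _ => 0) = 1 := by rw [hpsi, inv_mul_cancel]
  -- the numbers
  have hK0 : 0 < K := by linarith
  have hp1 := (hF.pb g).1
  have hp2 := (hF.pb g).2
  have hp0 : 0 < X.p g := lt_of_lt_of_le (by positivity) hp1
  obtain ⟨hq, hm, -⟩ := hF.qb g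
  have hC50 : 0 < C5 := by linarith
  have hC5i : 0 < 1 / C5 := by positivity
  have hd0 : 0 < uu - us := by linarith
  have hmem : ∀ z : Fin 3 → ℝ, z ∈ cu r ↔ ∀ i, |z i| ≤ r := by
    intro z
    unfold cu
    rw [mem_Icc, Pi.le_def, Pi.le_def]
    constructor
    · rintro ⟨ha, hb⟩ i
      exact abs_le.2 ⟨ha i, hb i⟩
    · intro h
      exact ⟨fun i => (abs_le.1 (h i)).1, fun i => (abs_le.1 (h i)).2⟩
  have h0Q : (fun _ : Fin 3 => (0 : ℝ)) ∈ cu r := (hmem _).2 fun i => by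
    show |(0 : ℝ)| ≤ r
    rw [abs_zero]
    exact hr.le
  set M : (Fin 3 → ℝ) → SL(2, ℝ) := fun z => g⁻¹ * psN ε X g z with hM
  set Om : (Fin 3 → ℝ) → Fin 3 → ℝ := fun z => NLS_S (X.p g) (X.q g) (X.m g) us uu ((M z).1 0 0 - (M z).1 1 1) ((M z).1 0 1) ((M z).1 1 0) with hOm
  set w : Fin 3 → ℝ := NLS_S (X.p g) (X.q g) (X.m g) us uu (D.1 0 0 - D.1 1 1) (D.1 0 1) (D.1 1 0) with hw
  obtain ⟨n1, n2, n3, n4⟩ := NLS_nm D
  have hwb : ∀ i, |w i| ≤ r / 2 := by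
    intro i
    have e1 : |D.1 0 0 - D.1 1 1| ≤ 2 * nm D := by
      have : D.1 0 0 - D.1 1 1 = (D.1 0 0 - 1) - (D.1 1 1 - 1) := by ring
      rw [this]
      exact (abs_sub _ _).trans (by linarith)
    refine (NLS_S_bd hK hC5 hp1 hp2 hq hm hus1 hus2 huu1 huu2 e1 n2 n3 i).trans ?_
    have e2 : nm D * (2 * C5 * Cs + 8 * C5) ≤ r := (le_div_iff₀ hC0).1 hD
    have e3 : 0 ≤ nm D := (abs_nonneg _).trans n2
    show Cs * nm D ≤ r / 2
    nlinarith
  have hlip : ∀ z ∈ cu r, ∀ z' ∈ cu r, ∀ i, |(Om z i - z i) - (Om z' i - z' i)| ≤ 1 / 2 * dist z z' := by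
    intro z hz z' hz' i
    obtain ⟨-, ha⟩ := hL z hz z' hz'
    have hd : 0 ≤ dist z z' := dist_nonneg
    have e1 := NLS_S_lin (X.p g) (X.q g) (X.m g) us uu hp0.ne' hd0.ne' (z - z') i
    have e2 : (Om z i - z i) - (Om z' i - z' i) = (Om z i - Om z' i) - (z - z') i := by
      rw [Pi.sub_apply]
      ring
    rw [e2, ← e1, NLS_S_sub, NLS_S_sub]
    have a00 : |(M z).1 0 0 - (M z').1 0 0 - (z - z') 0 * (X.p g / 2)| ≤ C5 * r * dist z z' := ha 0 0
    have a01 : |(M z).1 0 1 - (M z').1 0 1 - (-((z - z') 0 * X.q g) + (z - z') 1 * ((uu - (1 + X.m g) * 1 / X.p g) / 2) +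
      (z - z') 2 * ((us - (1 + X.m g) * 1 / X.p g) / 2))| ≤ C5 * r * dist z z' := ha 0 1
    have a10 : |(M z).1 1 0 - (M z').1 1 0 - ((z - z') 0 * X.q g + (z - z') 1 * ((-uu - (1 - X.m g) * 1 / X.p g) / 2) +
      (z - z') 2 * ((-us - (1 - X.m g) * 1 / X.p g) / 2))| ≤ C5 * r * dist z z' := ha 1 0
    have a11 : |(M z).1 1 1 - (M z').1 1 1 - -((z - z') 0 * (X.p g / 2))| ≤ C5 * r * dist z z' := ha 1 1
    have a0 : |((M z).1 0 0 - (M z).1 1 1) - ((M z').1 0 0 - (M z').1 1 1) -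
        ((z - z') 0 * (X.p g / 2) - -((z - z') 0 * (X.p g / 2)))| ≤ 2 * (C5 * r * dist z z') := by
      have : ((M z).1 0 0 - (M z).1 1 1) - ((M z').1 0 0 - (M z').1 1 1) - ((z - z') 0 * (X.p g / 2) - -((z - z') 0 * (X.p g / 2))) =
          ((M z).1 0 0 - (M z').1 0 0 - (z - z') 0 * (X.p g / 2)) - ((M z).1 1 1 - (M z').1 1 1 - -((z - z') 0 * (X.p g / 2))) := by ring
      rw [this]
      exact (abs_sub _ _).trans (by linarith)
    refine (NLS_S_bd hK hC5 hp1 hp2 hq hm hus1 hus2 huu1 huu2 a0 a01 a10 i).trans ?_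
    show Cs * (C5 * r * dist z z') ≤ 1 / 2 * dist z z'
    have e3 : Cs * (C5 * r) ≤ 1 / 2 := by nlinarith
    calc Cs * (C5 * r * dist z z') = Cs * (C5 * r) * dist z z' := by ring
      _ ≤ 1 / 2 * dist z z' := mul_le_mul_of_nonneg_right e3 hd
  have hOm0 : ∀ i, Om (fun _ => 0) i = 0 := by
    intro i
    have e1 : M (fun _ => 0) = 1 := hpsi0
    show NLS_S (X.p g) (X.q g) (X.m g) us uu ((M (fun _ => 0)).1 0 0 - (M (fun _ => 0)).1 1 1) ((M (fun _ => 0)).1 0 1) ((M (fun _ => 0)).1 1 0) i = 0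
    rw [e1]
    have e2 : ((1 : SL(2, ℝ)).1 0 0 - (1 : SL(2, ℝ)).1 1 1 : ℝ) = 0 := by simp
    have e3 : ((1 : SL(2, ℝ)).1 0 1 : ℝ) = 0 := by simp
    have e4 : ((1 : SL(2, ℝ)).1 1 0 : ℝ) = 0 := by simp
    rw [e2, e3, e4]
    unfold NLS_S
    fin_cases i <;> simp
  have hdist0 : ∀ z ∈ cu r, dist z (fun _ => 0) ≤ r := by
    intro z hz
    rw [dist_pi_le_iff hr.le]
    intro i
    rw [Real.dist_eq, sub_zero]
    exact (hmem z).1 hz i
  have hmap : ∀ z ∈ cu r, (fun i => w i - (Om z i - z i)) ∈ cu r := by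
    intro z hz
    rw [hmem]
    intro i
    have e1 := hlip z hz _ h0Q i
    rw [hOm0 i, sub_zero, sub_zero] at e1
    have e2 := hdist0 z hz
    have e3 := hwb i
    exact (abs_sub _ _).trans (by linarith)
  have hcl : IsClosed (cu r) := isClosed_Icc
  have hcomp : CompleteSpace (cu r) := hcl.completeSpace_coe
  have hne : Nonempty (cu r) := ⟨⟨_, h0Q⟩⟩
  let T : cu r → cu r := fun z => ⟨fun i => w i - (Om z.1 i - z.1 i), hmap z.1 z.2⟩
  have hTc : ContractingWith (1 / 2) T := by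
    refine ⟨?_, LipschitzWith.of_dist_le_mul fun z z' => ?_⟩
    · rw [← NNReal.coe_lt_coe]
      norm_num
    · rw [Subtype.dist_eq, Subtype.dist_eq, dist_pi_le_iff (by positivity)]
      intro i
      have e1 := hlip z.1 z.2 z'.1 z'.2 i
      rw [Real.dist_eq]
      have e2 : (w i - (Om z.1 i - z.1 i)) - (w i - (Om z'.1 i - z'.1 i)) = -((Om z.1 i - z.1 i) - (Om z'.1 i - z'.1 i)) := by ring
      show |(w i - (Om z.1 i - z.1 i)) - (w i - (Om z'.1 i - z'.1 i))| ≤ _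
      rw [e2, abs_neg]
      exact e1.trans (le_of_eq (by norm_num))
  obtain ⟨z, hz⟩ : ∃ z : cu r, T z = z := ⟨ContractingWith.fixedPoint T hTc, hTc.fixedPoint_isFixedPt⟩
  have hfix : ∀ i, Om z.1 i = w i := by
    intro i
    have e1 : w i - (Om z.1 i - z.1 i) = z.1 i := congrFun (congrArg Subtype.val hz) i
    linarith
  refine ⟨z.1, z.2, ?_⟩
  obtain ⟨e0, e2, e1⟩ := NLS_S_inj hp0.ne' hd0.ne' hfix
  have dM := (M z.1).2
  have dD := D.2
  rw [Matrix.det_fin_two] at dM dD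
  have hnM : nm (M z.1) ≤ 1 / 8 := by
    have b1 := (hL _ h0Q z.1 z.2).1
    rw [hpsi] at b1
    have b2 := hdist0 z.1 z.2
    rw [dist_comm] at b2
    have b3 : C5 * r ≤ 1 / 8 := by nlinarith
    calc nm (M z.1) ≤ C5 * dist (fun _ => 0) z.1 := b1
      _ ≤ C5 * r := mul_le_mul_of_nonneg_left b2 hC50.le
      _ ≤ 1 / 8 := b3
  have hnD : nm D ≤ 1 / 8 := by
    refine hD.trans ?_
    rw [div_le_iff₀ hC0]
    nlinarith
  obtain ⟨k1, -, -, k4⟩ := NLS_nm (M z.1)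
  obtain ⟨c1, c2⟩ := abs_le.1 k1
  obtain ⟨c3, c4⟩ := abs_le.1 k4
  obtain ⟨m1, -⟩ := abs_le.1 n1
  obtain ⟨m4, -⟩ := abs_le.1 n4
  have hsq : ((M z.1).1 0 0 + (M z.1).1 1 1) ^ 2 = (D.1 0 0 + D.1 1 1) ^ 2 := by
    rw [e1, e2] at dM
    have e8 : ((M z.1).1 0 0 - (M z.1).1 1 1) ^ 2 = (D.1 0 0 - D.1 1 1) ^ 2 := by rw [e0]
    linear_combination e8 + 4 * dM - 4 * dD
  have hMp : 0 ≤ (M z.1).1 0 0 + (M z.1).1 1 1 := by linarith
  have hDp : 0 ≤ D.1 0 0 + D.1 1 1 := by linarith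
  have hsum : (M z.1).1 0 0 + (M z.1).1 1 1 = D.1 0 0 + D.1 1 1 := by
    rw [← abs_of_nonneg hMp, ← abs_of_nonneg hDp]
    exact (sq_eq_sq_iff_abs_eq_abs _ _).1 hsq
  have hMD : M z.1 = D := by
    apply Matrix.SpecialLinearGroup.ext
    intro i j
    fin_cases i <;> fin_cases j
    · show (M z.1).1 0 0 = D.1 0 0
      linarith
    · exact e2
    · exact e1
    · show (M z.1).1 1 1 = D.1 1 1
      linarith
  have e8 : g⁻¹ * psN ε X g z.1 = D := hMD
  rw [← e8, mul_inv_cancel_left]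

end

end Pool.Agent.VNE
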